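import Mathlib

/-!
# Cube-free v-palindromes (MP_912f70_nt): definitions and statements of the pieces

Numbers 1011 m, m a decimal palindrome with windows; blocks of words around the centre.
-/

namespace Pool.Agent.H88.VP

/-- the decimal digit reversal -/
def rev (n : ℕ) : ℕ := Nat.ofDigits 10 (Nat.digits 10 n).reverse

/-- the additive function v: the sum of the primes of n and of the exponents larger than 1 -/
def vv (n : ℕ) : ℕ := n.factorization.sum (fun p e => if e = 1 then p else p + e)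

/-- n is a v-palindrome in base ten -/
def IsVPal (n : ℕ) : Prop := 1 ≤ n ∧ ¬ 10 ∣ n ∧ n ≠ rev n ∧ vv n = vv (rev n)

/-- no cube of a prime divides n -/
def CubeFree (n : ℕ) : Prop := ∀ p : ℕ, p.Prime → ¬ p ^ 3 ∣ n

/-- windows of four consecutive digits -/
def Win (g : ℕ → ℕ) : Prop := ∀ i, g i + g (i + 3) + max (g (i + 1)) (g (i + 2)) ≤ 9

/-- a word (list of digits, three zeros in front are added for the windows) -/
def Good (w : List ℕ) : Prop := Win (fun i => ([0, 0, 0] ++ w).getD i 0)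

/-- contribution of the block number j (distances jL, ..., jL + L - 1 from the centre N) -/
def blk (N L j : ℕ) (w : List ℕ) : ℕ :=
  ∑ i ∈ Finset.range L, w.getD i 0 * (10 ^ (N + j * L + i) + 10 ^ (N - j * L - i))

/-- the palindrome with blocks 1, ..., K, block 0 zero, outermost digit 1 -/
def mv (L : ℕ) {K : ℕ} (ω : Fin K → List ℕ) : ℕ :=
  10 ^ (2 * ((K + 1) * L)) + 1 + ∑ j : Fin K, blk ((K + 1) * L) L (j + 1) (ω j)

/-! ## A: arithmetic -/

def SA : Prop := ∀ m : ℕ, rev (1011 * m) = 1101 * m → ¬ 2 ∣ m → ¬ 5 ∣ m → ¬ 9 ∣ m →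
  m % (337 * 367) ^ 2 = 337 * 367 →
  (∀ p : ℕ, p.Prime → 7 ≤ p → p ≠ 337 → p ≠ 367 → ¬ p ^ 3 ∣ m) →
  IsVPal (1011 * m) ∧ CubeFree (1011 * m) ∧ CubeFree (1101 * m)

/-! ## B: digits and reversal -/

def SB : Prop := ∀ (N : ℕ) (e : ℕ → ℕ), (∀ t, t ≤ 2 * N → e t = e (2 * N - t)) →
  (∀ t, 2 * N < t → e t = 0) → e 0 = 1 → Win e →
  rev (1011 * ∑ t ∈ Finset.range (2 * N + 1), e t * 10 ^ t) =
    1101 * ∑ t ∈ Finset.range (2 * N + 1), e t * 10 ^ t

/-- the members of the family have the shape of `SB` -/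
def SG : Prop := ∀ (L K : ℕ) (ω : Fin K → List ℕ), 5 ≤ L →
  (∀ j, (ω j).length + 3 = L ∧ Good (ω j)) →
  ∃ e : ℕ → ℕ, (∀ t, t ≤ 2 * ((K + 1) * L) → e t = e (2 * ((K + 1) * L) - t)) ∧
    (∀ t, 2 * ((K + 1) * L) < t → e t = 0) ∧ e 0 = 1 ∧ Win e ∧
    mv L ω = ∑ t ∈ Finset.range (2 * ((K + 1) * L) + 1), e t * 10 ^ t

/-! ## C: many words -/

def SC : Prop := ∃ (l : ℕ) (W : Finset (List ℕ)), 2 ≤ l ∧
  (∀ w ∈ W, w.length + 3 = 3 * l ∧ Good w) ∧
  List.replicate (3 * l - 3) 0 ∈ W ∧ (1 :: List.replicate (3 * l - 4) 0) ∈ W ∧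
  10 ^ (2 * l) < W.card

/-! ## D: few members are divisible by a large modulus -/

def SD : Prop := ∀ (L K j Q : ℕ) (W : Finset (List ℕ)), 5 ≤ L →
  (∀ w ∈ W, w.length + 3 = L ∧ Good w) → Nat.Coprime Q 10 → j ≤ K →
  10 ^ (2 * ((j + 1) * L)) ≤ Q →
  (Finset.univ.filter (fun ω : Fin K → W => Q ∣ mv L (fun i => (ω i : List ℕ)))).card ≤
    W.card ^ (K - j)

/-! ## E: equidistribution modulo q -/

def SE : Prop := ∀ (L q : ℕ) (W : Finset (List ℕ)), 5 ≤ L → Nat.Coprime q 10 → 1 ≤ q →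
  (∀ w ∈ W, w.length + 3 = L) →
  List.replicate (L - 3) 0 ∈ W → (1 :: List.replicate (L - 4) 0) ∈ W →
  ∀ ε : ℝ, 0 < ε → ∃ K0 : ℕ, ∀ K, K0 ≤ K → ∀ r : ℕ, r < q →
    |((Finset.univ.filter (fun ω : Fin K → W => mv L (fun i => (ω i : List ℕ)) % q = r)).card : ℝ)
      - (W.card : ℝ) ^ K / q| ≤ ε * (W.card : ℝ) ^ K

/-! ## F: conclusion -/

def SF : Prop := {n : ℕ | IsVPal n ∧ CubeFree n ∧ CubeFree (rev n)}.Infinite

end Pool.Agent.H88.VP
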